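import Pool.Agent.R692.SG.Ide

set_option autoImplicit false

/-!
# The group and the final properties (helper692)
-/

namespace Pool.Agent.R692.SG

open MvPolynomial

lemma coeff_of_dvd {i : ℤ} {p : P} {n : ℤ →₀ ℕ} (h : X i ∣ p) (hn : coeff n p ≠ 0) : n i ≠ 0 := by
  classical
  obtain ⟨r, rfl⟩ := h
  intro h0
  apply hn
  rw [coeff_X_mul', if_neg]
  rwa [Finsupp.mem_support_iff, not_not]

lemma S_add {n n' : ℤ →₀ ℕ} (h : ∀ i, n i ≠ 0 → n' i = 0) : S (monomial n 1 + monomial n' 1) := by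
  classical
  intro i hi
  have h1 : coeff n (monomial n (1 : ℚ) + monomial n' 1) ≠ 0 := by
    rw [coeff_add, coeff_monomial, coeff_monomial, if_pos rfl]
    split_ifs <;> norm_num
  have h2 : coeff n' (monomial n (1 : ℚ) + monomial n' 1) ≠ 0 := by
    rw [coeff_add, coeff_monomial, coeff_monomial, if_pos rfl]
    split_ifs <;> norm_num
  exact coeff_of_dvd hi h2 (h i (coeff_of_dvd hi h1))

/-- split off a monomial -/
lemma strip : ∀ (d : ℕ) (a : P), a ≠ 0 → a.totalDegree ≤ d →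
    ∃ (n : ℤ →₀ ℕ) (s : P), S s ∧ a = monomial n 1 * s := by
  intro d
  induction d with
  | zero =>
    intro a ha hd
    refine ⟨0, a, ?_, by rw [monomial_zero', C_1, one_mul]⟩
    rintro i ⟨r, rfl⟩
    have hr : r ≠ 0 := by
      rintro rfl
      exact ha (mul_zero _)
    rw [totalDegree_mul_of_isDomain (X_ne_zero i) hr, totalDegree_X] at hd
    omega
  | succ d ih =>
    intro a ha hd
    by_cases h : S a
    · exact ⟨0, a, h, by rw [monomial_zero', C_1, one_mul]⟩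
    · unfold S at h
      push Not at h
      obtain ⟨i, r, rfl⟩ := h
      have hr : r ≠ 0 := by
        rintro rfl
        exact ha (mul_zero _)
      rw [totalDegree_mul_of_isDomain (X_ne_zero i) hr, totalDegree_X] at hd
      obtain ⟨n, s, hs, e⟩ := ih r hr (by omega)
      refine ⟨Finsupp.single i 1 + n, s, hs, ?_⟩
      rw [e, ← mul_assoc]
      congr 1
      rw [X, monomial_mul, one_mul]

/-- ratios of monomials of the same degree -/
noncomputable def Q : Subgroup Kˣ := Subgroup.closure {u | ∃ i j, (u : K) * x j = x i}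

lemma Q_map {q : Kˣ} (hq : q ∈ Q) {φ : K ≃ₐ[ℚ] K} (hφ : φ ∈ Γ) :
    Units.map (φ : K →* K) q ∈ Q := by
  obtain ⟨σ, hσ⟩ := hφ
  have : Q ≤ Q.comap (Units.map (φ : K →* K)) := by
    unfold Q
    rw [Subgroup.closure_le]
    rintro u ⟨i, j, h⟩
    refine Subgroup.subset_closure ⟨σ i, σ j, ?_⟩
    rw [← hσ, ← hσ, ← h, map_mul]
    rfl
  exact this hq

lemma Q_H {q : Kˣ} (hq : q ∈ Q) {h : K ≃ₐ[ℚ] K} (hh : h ∈ H) :
    ∃ c : ℚ, h (q : K) = algebraMap ℚ K c * (q : K) := by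
  induction hq using Subgroup.closure_induction with
  | mem u hu =>
    obtain ⟨i, j, e⟩ := hu
    obtain ⟨c, hc, hc'⟩ := hh i
    obtain ⟨d, hd, hd'⟩ := hh j
    refine ⟨c / d, ?_⟩
    have h1 := congrArg h e
    rw [map_mul, hc', hd'] at h1
    have hd0 : algebraMap ℚ K d ≠ 0 := by
      rw [Ne, map_eq_zero_iff _ (algebraMap ℚ K).injective]
      exact hd
    apply mul_right_cancel₀ (mul_ne_zero hd0 (x_ne j))
    rw [h1, ← e, map_div₀]
    field_simp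
  | one => exact ⟨1, by simp⟩
  | mul u v _ _ hu hv =>
    obtain ⟨c, hc⟩ := hu
    obtain ⟨d, hd⟩ := hv
    refine ⟨c * d, ?_⟩
    rw [Units.val_mul, map_mul, hc, hd, map_mul]
    ring
  | inv u _ hu =>
    obtain ⟨c, hc⟩ := hu
    refine ⟨c⁻¹, ?_⟩
    rw [Units.val_inv_eq_inv_val, map_inv₀, hc, map_inv₀, mul_inv]

lemma Q_mon {q : Kˣ} (hq : q ∈ Q) : ∃ n n' : ℤ →₀ ℕ, (n.sum fun _ k => k) = (n'.sum fun _ k => k) ∧
    (q : K) * ι (monomial n' 1) = ι (monomial n 1) := by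
  induction hq using Subgroup.closure_induction with
  | mem u hu =>
    obtain ⟨i, j, e⟩ := hu
    exact ⟨Finsupp.single i 1, Finsupp.single j 1, by simp, e⟩
  | one => exact ⟨0, 0, rfl, by simp⟩
  | mul u v _ _ hu hv =>
    obtain ⟨n, n', h1, h2⟩ := hu
    obtain ⟨m, m', h3, h4⟩ := hv
    refine ⟨n + m, n' + m', ?_, ?_⟩
    · rw [Finsupp.sum_add_index' (by simp) (by simp), Finsupp.sum_add_index' (by simp) (by simp), h1, h3]
    · have e : ∀ a b : ℤ →₀ ℕ, (monomial (a + b) (1 : ℚ)) = monomial a 1 * monomial b 1 := by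
        intro a b
        rw [monomial_mul, one_mul]
      rw [e, e, map_mul, map_mul, ← h2, ← h4, Units.val_mul]
      ring
  | inv u _ hu =>
    obtain ⟨n, n', h1, h2⟩ := hu
    refine ⟨n', n, h1.symm, ?_⟩
    rw [← h2, Units.val_inv_eq_inv_val, inv_mul_cancel_left₀ u.ne_zero]

lemma Q_B {q : Kˣ} (hq : q ∈ Q) (hB : (q : K) ∈ B) : q = 1 := by
  obtain ⟨n, n', h1, h2⟩ := Q_mon hq
  obtain ⟨a, s, hs, h3⟩ := hB
  have h4 : monomial n 1 * s = monomial n' 1 * a := by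
    apply ι_inj
    rw [map_mul, map_mul, ← h2, ← h3]
    ring
  have h5 : n' ≤ n := by
    intro i
    have e : (monomial n' (1 : ℚ) : P) = monomial (n' - Finsupp.single i (n' i)) 1 * X i ^ (n' i) := by
      rw [X_pow_eq_monomial, monomial_mul, one_mul]
      have e2 : n' = n' - Finsupp.single i (n' i) + Finsupp.single i (n' i) := by
        ext j
        rw [Finsupp.add_apply, Finsupp.tsub_apply, Finsupp.single_apply]
        split_ifs with hj
        · subst hj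
          omega
        · omega
      rw [← e2]
    have h6 : X i ^ (n' i) ∣ monomial n (1 : ℚ) := by
      refine X_prime.pow_dvd_of_dvd_mul_right _ (hs i) ?_
      rw [h4, e]
      exact ⟨monomial (n' - Finsupp.single i (n' i)) 1 * a, by ring⟩
    rw [X_pow_eq_monomial, monomial_dvd_monomial] at h6
    have h7 := (h6.1.resolve_left one_ne_zero) i
    rwa [Finsupp.single_eq_same] at h7
  have h6 : n = n' := by
    obtain ⟨k, rfl⟩ := exists_add_of_le h5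
    rw [Finsupp.sum_add_index' (by simp) (by simp)] at h1
    have h7 : (k.sum fun _ k => k) = 0 := by omega
    have h8 : k = 0 := by
      ext i
      rw [Finsupp.sum, Finset.sum_eq_zero_iff] at h7
      by_cases hi : i ∈ k.support
      · exact h7 i hi
      · exact Finsupp.notMem_support_iff.1 hi
    rw [h8, add_zero]
  rw [h6] at h2
  have h0 : ι (monomial n' (1 : ℚ)) ≠ 0 := by
    rw [Ne, map_eq_zero_iff _ ι_inj, monomial_eq_zero]
    exact one_ne_zero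
  apply Units.ext
  rw [Units.val_one]
  apply mul_right_cancel₀ h0
  rw [h2, one_mul]

lemma mm (a b : K) : m a * m b = m (a * b) := En_ext fun t => by
  rw [mul_ap, m_apply, m_apply, m_apply, mul_assoc]

lemma am (φ : K ≃ₐ[ℚ] K) (b : K) : au φ * m b = m (φ b) * au φ := En_ext fun t => by
  rw [mul_ap, mul_ap, m_apply, m_apply, au_apply, au_apply, map_mul]

lemma aa (φ ψ : K ≃ₐ[ℚ] K) : au φ * au ψ = au (φ * ψ) := En_ext fun _ => rfl

lemma m_one : m 1 = 1 := En_ext fun t => one_mul t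

lemma au_one : au 1 = 1 := En_ext fun _ => rfl

lemma mul4 (a b : K) (φ ψ : K ≃ₐ[ℚ] K) : (m a * au φ) * (m b * au ψ) = m (a * φ b) * au (φ * ψ) := by
  rw [mul_assoc, ← mul_assoc (au φ), am, mul_assoc, aa, ← mul_assoc, mm]

/-- the group -/
noncomputable def G : Subgroup Enˣ where
  carrier := {u | ∃ q ∈ Q, ∃ φ ∈ Γ, (u : En) = m (q : K) * au φ}
  one_mem' := ⟨1, Q.one_mem, 1, Γ.one_mem, by rw [Units.val_one, Units.val_one, m_one, au_one, one_mul]⟩
  mul_mem' := by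
    rintro u v ⟨q, hq, φ, hφ, h1⟩ ⟨r, hr, ψ, hψ, h2⟩
    refine ⟨q * Units.map (φ : K →* K) r, Q.mul_mem hq (Q_map hr hφ), φ * ψ, Γ.mul_mem hφ hψ, ?_⟩
    rw [Units.val_mul, h1, h2, mul4]
    rfl
  inv_mem' := by
    rintro u ⟨q, hq, φ, hφ, h1⟩
    refine ⟨Units.map ((φ⁻¹ : K ≃ₐ[ℚ] K) : K →* K) q⁻¹, Q_map (Q.inv_mem hq) (Γ.inv_mem hφ), φ⁻¹,
      Γ.inv_mem hφ, ?_⟩
    have h2 : (u : En) * (m ((φ⁻¹ : K ≃ₐ[ℚ] K) ((q⁻¹ : Kˣ) : K)) * au φ⁻¹) = 1 := by
      rw [h1, mul4, mul_inv_cancel, au_one, mul_one, AlgEquiv.aut_inv, AlgEquiv.apply_symm_apply,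
        Units.mul_inv, m_one]
    exact Units.inv_eq_of_mul_eq_one_right h2

lemma G_inv {u : Enˣ} {q : Kˣ} {φ : K ≃ₐ[ℚ] K} (h1 : (u : En) = m (q : K) * au φ) :
    ((u⁻¹ : Enˣ) : En) = m ((φ⁻¹ : K ≃ₐ[ℚ] K) ((q⁻¹ : Kˣ) : K)) * au φ⁻¹ := by
  have h2 : (u : En) * (m ((φ⁻¹ : K ≃ₐ[ℚ] K) ((q⁻¹ : Kˣ) : K)) * au φ⁻¹) = 1 := by
    rw [h1, mul4, mul_inv_cancel, au_one, mul_one, AlgEquiv.aut_inv, AlgEquiv.apply_symm_apply,
      Units.mul_inv, m_one]
  exact Units.inv_eq_of_mul_eq_one_right h2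

lemma hN : Nrm A G := by
  rintro g ⟨q, hq, φ, hφ, h1⟩ a ⟨c, hc, rfl⟩
  rw [G_inv h1, h1]
  have h2 : Φ c = ∑ h ∈ c.support, m (c h) * au (h : K ≃ₐ[ℚ] K) := by
    refine En_ext fun t => ?_
    rw [Φ_apply, sum_ap]
    rfl
  rw [h2, Finset.mul_sum, Finset.sum_mul]
  refine A.sum_mem fun h _ => ?_
  rw [mul4, mul4]
  obtain ⟨d, hd⟩ := Q_H (Q_map (Q.inv_mem hq) (Γ.inv_mem hφ)) h.2
  have hd' : (h : K ≃ₐ[ℚ] K) ((φ⁻¹ : K ≃ₐ[ℚ] K) ((q⁻¹ : Kˣ) : K)) =
    algebraMap ℚ K d * (φ⁻¹ : K ≃ₐ[ℚ] K) ((q⁻¹ : Kˣ) : K) := hd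
  have h3 : (q : K) * φ (c h) * (φ * (h : K ≃ₐ[ℚ] K)) ((φ⁻¹ : K ≃ₐ[ℚ] K) ((q⁻¹ : Kˣ) : K)) =
      algebraMap ℚ K d * φ (c h) := by
    rw [AlgEquiv.mul_apply, hd', map_mul, AlgEquiv.commutes, AlgEquiv.aut_inv,
      AlgEquiv.apply_symm_apply, Units.val_inv_eq_inv_val]
    have := q.ne_zero
    field_simp
  rw [h3]
  exact mh_mem (B.mul_mem (alg_mem d) (Γ_B hφ (hc h))) (Γ_conj hφ h.2)

lemma A_pow {a : En} (ha : a ∈ A) (i : ℤ) (N : ℕ) : a ((x i)⁻¹ ^ N) * x i ^ N ∈ B := by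
  obtain ⟨c, hc, rfl⟩ := ha
  rw [Φ_apply, Finsupp.sum, Finset.sum_mul]
  refine B.sum_mem fun h _ => ?_
  obtain ⟨d, hd, e⟩ := h.2 i
  have h1 : c h * (h : K ≃ₐ[ℚ] K) ((x i)⁻¹ ^ N) * x i ^ N = c h * algebraMap ℚ K (d⁻¹ ^ N) := by
    rw [map_pow, map_inv₀, e, map_pow, map_inv₀]
    have := x_ne i
    rw [mul_inv, mul_pow, mul_assoc, mul_assoc, ← mul_pow (x i)⁻¹, inv_mul_cancel₀ this, one_pow, mul_one]
  rw [h1]
  exact B.mul_mem (hc h) (alg_mem _)

lemma GA {q : Kˣ} (hq : q ∈ Q) {ψ : K ≃ₐ[ℚ] K} (hψ : ψ ∈ Γ) (h : m (q : K) * au ψ ∈ A) : q = 1 ∧ ψ = 1 := by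
  constructor
  · have h1 := A_pow h 0 0
    rw [pow_zero, pow_zero, mul_one, mul_ap, m_apply, au_apply, map_one, mul_one] at h1
    exact Q_B hq h1
  · obtain ⟨σ, hσ⟩ := hψ
    apply aut_ext
    intro i
    rw [hσ]
    by_contra hne
    have hij : σ i ≠ i := fun h => hne (by rw [h])
    obtain ⟨a, b, hb, e⟩ := quo (q : K)
    have hb0 : ι b ≠ 0 := by
      rw [Ne, map_eq_zero_iff _ ι_inj]
      exact hb
    have ha : a ≠ 0 := by
      rintro rfl
      rw [map_zero] at e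
      exact (mul_ne_zero q.ne_zero hb0) e
    obtain ⟨c, s, hs, h1⟩ := A_pow h i (a.totalDegree + 1)
    rw [mul_ap, m_apply, au_apply, map_pow, map_inv₀, hσ] at h1
    have h2 : a * (X i ^ (a.totalDegree + 1) * s) = c * b * X (σ i) ^ (a.totalDegree + 1) := by
      apply ι_inj
      rw [map_mul, map_mul, map_mul, map_mul, ← e, ← h1, map_pow, map_pow]
      change _ * (x i ^ _ * _) = _ * x (σ i) ^ _
      have := x_ne (σ i)
      have h3 : (x (σ i))⁻¹ ^ (a.totalDegree + 1) * x (σ i) ^ (a.totalDegree + 1) = 1 := by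
        rw [← mul_pow, inv_mul_cancel₀ this, one_pow]
      linear_combination (-(q : K) * ι b * x i ^ (a.totalDegree + 1) * ι s) * h3
    have h3 : X (σ i) ^ (a.totalDegree + 1) ∣ a := by
      refine X_prime.pow_dvd_of_dvd_mul_right _ ?_ (Dvd.intro_left _ h2.symm)
      intro h4
      rcases X_prime.dvd_or_dvd h4 with h5 | h5
      · have := X_prime.dvd_of_dvd_pow h5
        rw [X_dvd_X] at this
        exact hij this
      · exact hs _ h5
    obtain ⟨r, hr⟩ := h3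
    have hr0 : r ≠ 0 := by
      rintro rfl
      exact ha (by rw [hr, mul_zero])
    have h4 := congrArg totalDegree hr
    rw [totalDegree_mul_of_isDomain (pow_ne_zero _ (X_ne_zero _)) hr0, totalDegree_X_pow] at h4
    omega

lemma hC (u : En) (hu : ∀ a ∈ A, u * a = a * u) (g : Enˣ) (hg : g ∈ G) (hug : u * ((g⁻¹ : Enˣ) : En) ∈ A)
    (h0 : u ≠ 0) : g = 1 := by
  have h1 : u = m (u 1) * au 1 := by
    apply comm_mul
    intro b hb t
    exact DFunLike.congr_fun (hu _ (m_mem hb)) t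
  have h2 : ∀ φ ∈ H, φ (u 1) = u 1 := by
    intro φ hφ
    have := DFunLike.congr_fun (hu _ (h_mem hφ)) 1
    rw [mul_ap, mul_ap, au_apply, au_apply, map_one] at this
    exact this.symm
  obtain ⟨c, hc⟩ := inv_rat _ h2
  rw [hc, au_one, mul_one] at h1
  have hc0 : c ≠ 0 := by
    rintro rfl
    apply h0
    rw [h1, map_zero]
    exact En_ext fun t => zero_mul t
  have hc1 : algebraMap ℚ K c ≠ 0 := by
    rw [Ne, map_eq_zero_iff _ (algebraMap ℚ K).injective]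
    exact hc0
  have h3 : ((g⁻¹ : Enˣ) : En) ∈ A := by
    have h4 := A.mul_mem (m_mem (alg_mem c⁻¹)) hug
    rwa [h1, ← mul_assoc, mm, ← map_mul, inv_mul_cancel₀ hc0, map_one, m_one, one_mul] at h4
  obtain ⟨q, hq, φ, hφ, h4⟩ := G.inv_mem hg
  rw [h4] at h3
  obtain ⟨rfl, rfl⟩ := GA hq hφ h3
  rw [Units.val_one, m_one, au_one, one_mul] at h4
  have : g⁻¹ = 1 := Units.ext h4
  exact inv_eq_one.1 this

lemma hS (J : Set En) (hJA : J ⊆ A) (h0 : ∃ a ∈ J, a ≠ 0)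
    (hadd : ∀ a ∈ J, ∀ b ∈ J, a + b ∈ J) (hmul : ∀ a ∈ A, ∀ b ∈ J, a * b ∈ J ∧ b * a ∈ J)
    (hG : ∀ g ∈ G, ∀ b ∈ J, (g : En) * b * ((g⁻¹ : Enˣ) : En) ∈ J) : (1 : En) ∈ J := by
  obtain ⟨b, hb, hb0, hbJ⟩ := ideal_mul J hJA h0 hadd hmul
  obtain ⟨a, s, hs, e⟩ := hb
  have hs0 : ι s ≠ 0 := by
    rw [Ne, map_eq_zero_iff _ ι_inj]
    exact S_ne hs
  have ha0 : a ≠ 0 := by
    rintro rfl
    rw [map_zero] at e
    exact mul_ne_zero hb0 hs0 e
  have haJ : m (ι a) ∈ J := by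
    rw [← e, ← mm]
    exact (hmul _ (m_mem (ι_mem s)) _ hbJ).2
  obtain ⟨n, s', hs', e'⟩ := strip _ a ha0 le_rfl
  have hs0' : ι s' ≠ 0 := by
    rw [Ne, map_eq_zero_iff _ ι_inj]
    exact S_ne hs'
  have hnJ : m (ι (monomial n 1)) ∈ J := by
    have h1 : ι (monomial n 1) = ι a * (ι s')⁻¹ := by
      rw [e', map_mul, mul_inv_cancel_right₀ hs0']
    rw [h1, ← mm]
    exact (hmul _ (m_mem (inv_mem hs')) _ haJ).2
  -- shift
  set M : ℕ := ∑ i ∈ n.support, i.natAbs with hM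
  have hM' : ∀ i, n i ≠ 0 → i.natAbs ≤ M := fun i hi =>
    Finset.single_le_sum (f := fun i : ℤ => i.natAbs) (fun _ _ => Nat.zero_le _) (Finsupp.mem_support_iff.2 hi)
  obtain ⟨φ, hφ, hφ'⟩ := perm (Equiv.addRight ((2 * M + 1 : ℕ) : ℤ))
  let g : Enˣ := ⟨au φ, au φ⁻¹, by rw [aa, mul_inv_cancel, au_one], by rw [aa, inv_mul_cancel, au_one]⟩
  have hg : g ∈ G := ⟨1, Q.one_mem, φ, hφ, by rw [Units.val_one, m_one, one_mul]⟩
  have h2 := hG g hg _ hnJ
  have h3 : (g : En) * m (ι (monomial n 1)) * ((g⁻¹ : Enˣ) : En) =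
      m (ι (monomial (n.mapDomain (Equiv.addRight ((2 * M + 1 : ℕ) : ℤ))) 1)) := by
    show au φ * _ * au φ⁻¹ = _
    rw [am, mul_assoc, aa, mul_inv_cancel, au_one, mul_one, hφ', rename_monomial]
  rw [h3] at h2
  have h4 := hadd _ hnJ _ h2
  have h5 : m (ι (monomial n 1)) + m (ι (monomial (n.mapDomain (Equiv.addRight ((2 * M + 1 : ℕ) : ℤ))) 1)) =
      m (ι (monomial n 1 + monomial (n.mapDomain (Equiv.addRight ((2 * M + 1 : ℕ) : ℤ))) 1)) := by
    refine En_ext fun t => ?_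
    rw [add_ap, m_apply, m_apply, m_apply, map_add, add_mul]
  rw [h5] at h4
  have h6 : S (monomial n 1 + monomial (n.mapDomain (Equiv.addRight ((2 * M + 1 : ℕ) : ℤ))) 1) := by
    apply S_add
    intro i hi
    by_contra h7
    have h8 : n ((Equiv.addRight ((2 * M + 1 : ℕ) : ℤ)).symm i) ≠ 0 := by
      rwa [Finsupp.mapDomain_equiv_apply] at h7
    have h9 := hM' _ hi
    have h10 := hM' _ h8
    have h11 : (Equiv.addRight ((2 * M + 1 : ℕ) : ℤ)).symm i = i - ((2 * M + 1 : ℕ) : ℤ) := rfl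
    rw [h11] at h10
    omega
  have h7 := (hmul _ (m_mem (inv_mem h6)) _ h4).1
  rw [mm, inv_mul_cancel₀, m_one] at h7
  · exact h7
  · rw [Ne, map_eq_zero_iff _ ι_inj]
    exact S_ne h6

lemma hK : ∃ g ∈ G, g ≠ 1 ∧ ∃ a ∈ A, a ≠ 0 ∧ a * ((g⁻¹ : Enˣ) : En) ∈ A := by
  have h0 := x_ne 0
  have h1 := x_ne 1
  let q : Kˣ := Units.mk0 (x 0 / x 1) (div_ne_zero h0 h1)
  have hq : q ∈ Q := Subgroup.subset_closure ⟨0, 1, div_mul_cancel₀ _ h1⟩
  let g : Enˣ := ⟨m q, m ((q⁻¹ : Kˣ) : K), by rw [mm, Units.mul_inv, m_one], by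
    rw [mm, Units.inv_mul, m_one]⟩
  refine ⟨g, ⟨q, hq, 1, Γ.one_mem, by rw [au_one, mul_one]⟩, ?_, m (x 0), m_mem (ι_mem _), ?_, ?_⟩
  · intro h
    have h2 : m (q : K) = 1 := congrArg Units.val h
    have h3 := DFunLike.congr_fun h2 1
    rw [m_apply, one_ap, mul_one] at h3
    have h4 : x 0 / x 1 = 1 := h3
    rw [div_eq_one_iff_eq h1] at h4
    have h5 := ι_inj h4
    have := X_injective h5
    omega
  · intro h
    have h3 := DFunLike.congr_fun h 1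
    rw [m_apply, mul_one] at h3
    exact h0 h3
  · show m (x 0) * m ((q⁻¹ : Kˣ) : K) ∈ A
    rw [mm]
    have : x 0 * ((q⁻¹ : Kˣ) : K) = x 1 := by
      rw [Units.val_inv_eq_inv_val]
      show x 0 * (x 0 / x 1)⁻¹ = x 1
      field_simp
    rw [this]
    exact m_mem (ι_mem _)

end Pool.Agent.R692.SG
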