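import Pool.Agent.R692.SG.Gen

set_option autoImplicit false

/-!
# The concrete example (helper692)
-/

namespace Pool.Agent.R692.SG

open MvPolynomial

/-- polynomials in variables indexed by the integers -/
abbrev P := MvPolynomial ℤ ℚ
/-- the field of rational functions -/
abbrev K := FractionRing P
/-- additive endomorphisms -/
abbrev En := AddMonoid.End K

/-- inclusion -/
noncomputable abbrev ι : P →+* K := algebraMap P K

lemma ι_inj : Function.Injective ι := IsFractionRing.injective P K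

/-- the variables -/
noncomputable def x (i : ℤ) : K := ι (X i)

lemma x_ne (i : ℤ) : x i ≠ 0 := by
  unfold x
  rw [Ne, map_eq_zero_iff _ ι_inj]
  exact X_ne_zero i

/-- polynomials not divisible by any variable -/
def S (s : P) : Prop := ∀ i, ¬ X i ∣ s

lemma S_ne {s : P} (h : S s) : s ≠ 0 := by
  rintro rfl
  exact h 0 (dvd_zero _)

lemma S_one : S 1 := fun _ h => X_prime.not_isUnit (isUnit_of_dvd_one h)

lemma S_mul {s t : P} (hs : S s) (ht : S t) : S (s * t) := fun i h =>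
  (X_prime.dvd_or_dvd h).elim (hs i) (ht i)

/-- the intersection of the valuation rings of the variables -/
def B : Subring K where
  carrier := {t | ∃ a s : P, S s ∧ t * ι s = ι a}
  zero_mem' := ⟨0, 1, S_one, by simp⟩
  one_mem' := ⟨1, 1, S_one, by simp⟩
  add_mem' := by
    rintro t t' ⟨a, s, hs, h⟩ ⟨a', s', hs', h'⟩
    refine ⟨a * s' + a' * s, s * s', S_mul hs hs', ?_⟩
    rw [map_add, map_mul, map_mul, map_mul, ← h, ← h']
    ring
  neg_mem' := by
    rintro t ⟨a, s, hs, h⟩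
    exact ⟨-a, s, hs, by rw [map_neg, ← h]; ring⟩
  mul_mem' := by
    rintro t t' ⟨a, s, hs, h⟩ ⟨a', s', hs', h'⟩
    refine ⟨a * a', s * s', S_mul hs hs', ?_⟩
    rw [map_mul, map_mul, ← h, ← h']
    ring

lemma mem_B {t : K} : t ∈ B ↔ ∃ a s : P, S s ∧ t * ι s = ι a := Iff.rfl

lemma ι_mem (p : P) : ι p ∈ B := ⟨p, 1, S_one, by simp⟩

lemma alg_ι (c : ℚ) : algebraMap ℚ K c = ι (C c) := by
  rw [IsScalarTower.algebraMap_apply ℚ P K]
  rfl

lemma alg_mem (c : ℚ) : algebraMap ℚ K c ∈ B := by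
  rw [alg_ι]
  exact ι_mem _

lemma inv_mem {s : P} (hs : S s) : (ι s)⁻¹ ∈ B := by
  have : ι s ≠ 0 := by
    rw [Ne, map_eq_zero_iff _ ι_inj]
    exact S_ne hs
  exact ⟨1, s, hs, by rw [inv_mul_cancel₀ this, map_one]⟩

/-- every element is a quotient -/
lemma quo (t : K) : ∃ a s : P, s ≠ 0 ∧ t * ι s = ι a := by
  obtain ⟨a, s, hs, h⟩ := IsFractionRing.div_surjective P t
  have h0 : s ≠ 0 := nonZeroDivisors.ne_zero hs
  refine ⟨a, s, h0, ?_⟩
  rw [← h]
  have : ι s ≠ 0 := by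
    rw [Ne, map_eq_zero_iff _ ι_inj]
    exact h0
  exact div_mul_cancel₀ _ this

/-- automorphisms mapping variables to variables up to scalars -/
def mon (φ : K ≃ₐ[ℚ] K) : Prop := ∀ i, ∃ j, ∃ c : ℚ, c ≠ 0 ∧ φ (x i) = algebraMap ℚ K c * x j

lemma mon_P {φ : K ≃ₐ[ℚ] K} (h : mon φ) (p : P) : ∃ p' : P, φ (ι p) = ι p' := by
  induction p using MvPolynomial.induction_on with
  | C a => exact ⟨C a, by rw [← alg_ι, AlgEquiv.commutes]⟩
  | add p q hp hq =>
    obtain ⟨p', hp'⟩ := hp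
    obtain ⟨q', hq'⟩ := hq
    exact ⟨p' + q', by rw [map_add, map_add, hp', hq', map_add]⟩
  | mul_X p i hp =>
    obtain ⟨p', hp'⟩ := hp
    obtain ⟨j, c, hc, h1⟩ := h i
    refine ⟨p' * (C c * X j), ?_⟩
    rw [map_mul, map_mul, hp', map_mul, map_mul, ← alg_ι]
    congr 1

lemma mon_B {φ : K ≃ₐ[ℚ] K} (h : mon φ) (h' : mon φ.symm) {t : K} (ht : t ∈ B) : φ t ∈ B := by
  obtain ⟨a, s, hs, e⟩ := ht
  obtain ⟨a', ha'⟩ := mon_P h a
  obtain ⟨s', hs'⟩ := mon_P h s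
  refine ⟨a', s', ?_, ?_⟩
  · rintro i ⟨r, hr⟩
    obtain ⟨j, c, hc, h1⟩ := h' i
    obtain ⟨r', hr'⟩ := mon_P h' r
    apply hs j
    refine ⟨C c * r', ι_inj ?_⟩
    have : φ.symm (ι s') = ι s := by rw [← hs', AlgEquiv.symm_apply_apply]
    rw [← this, hr, map_mul, map_mul, hr', map_mul, map_mul, ← alg_ι]
    have h2 : φ.symm (ι (X i)) = algebraMap ℚ K c * x j := h1
    rw [h2]
    unfold x
    ring
  · rw [← ha', ← hs', ← map_mul, e]

/-- the torus -/
def H : Subgroup (K ≃ₐ[ℚ] K) where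
  carrier := {φ | ∀ i, ∃ c : ℚ, c ≠ 0 ∧ φ (x i) = algebraMap ℚ K c * x i}
  one_mem' := fun i => ⟨1, one_ne_zero, by simp⟩
  mul_mem' := by
    intro φ ψ h1 h2 i
    obtain ⟨c, hc, e⟩ := h1 i
    obtain ⟨d, hd, e'⟩ := h2 i
    refine ⟨c * d, mul_ne_zero hc hd, ?_⟩
    rw [AlgEquiv.mul_apply, e', map_mul, AlgEquiv.commutes, e, map_mul]
    ring
  inv_mem' := by
    intro φ h i
    obtain ⟨c, hc, e⟩ := h i
    refine ⟨c⁻¹, inv_ne_zero hc, ?_⟩
    have h1 : φ (algebraMap ℚ K c⁻¹ * x i) = x i := by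
      rw [map_mul, AlgEquiv.commutes, e, ← mul_assoc, ← map_mul, inv_mul_cancel₀ hc, map_one, one_mul]
    rw [AlgEquiv.aut_inv, AlgEquiv.symm_apply_eq, h1]

lemma H_mon {φ : K ≃ₐ[ℚ] K} (h : φ ∈ H) : mon φ := fun i => by
  obtain ⟨c, hc, e⟩ := h i
  exact ⟨i, c, hc, e⟩

lemma H_B {φ : K ≃ₐ[ℚ] K} (h : φ ∈ H) {t : K} (ht : t ∈ B) : φ t ∈ B :=
  mon_B (H_mon h) (H_mon (H.inv_mem h)) ht

/-- permutations of the variables -/
def Γ : Subgroup (K ≃ₐ[ℚ] K) where
  carrier := {φ | ∃ σ : Equiv.Perm ℤ, ∀ i, φ (x i) = x (σ i)}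
  one_mem' := ⟨1, fun i => by simp⟩
  mul_mem' := by
    rintro φ ψ ⟨σ, h1⟩ ⟨τ, h2⟩
    exact ⟨σ * τ, fun i => by rw [AlgEquiv.mul_apply, h2, h1]; rfl⟩
  inv_mem' := by
    rintro φ ⟨σ, h⟩
    refine ⟨σ⁻¹, fun i => ?_⟩
    rw [AlgEquiv.aut_inv, AlgEquiv.symm_apply_eq, h]
    congr 1
    exact (Equiv.apply_symm_apply σ i).symm

lemma Γ_mon {φ : K ≃ₐ[ℚ] K} (h : φ ∈ Γ) : mon φ := fun i => by
  obtain ⟨σ, h⟩ := h
  exact ⟨σ i, 1, one_ne_zero, by rw [h, map_one, one_mul]⟩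

lemma Γ_B {φ : K ≃ₐ[ℚ] K} (h : φ ∈ Γ) {t : K} (ht : t ∈ B) : φ t ∈ B :=
  mon_B (Γ_mon h) (Γ_mon (Γ.inv_mem h)) ht

lemma Γ_conj {φ h : K ≃ₐ[ℚ] K} (hφ : φ ∈ Γ) (hh : h ∈ H) : φ * h * φ⁻¹ ∈ H := by
  intro i
  obtain ⟨σ, hσ⟩ := Γ.inv_mem hφ
  obtain ⟨c, hc, e⟩ := hh (σ i)
  refine ⟨c, hc, ?_⟩
  rw [AlgEquiv.mul_apply, AlgEquiv.mul_apply, hσ, e, map_mul, AlgEquiv.commutes, ← hσ, AlgEquiv.aut_inv,
    AlgEquiv.apply_symm_apply]

/-- an automorphism is determined by the images of the variables -/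
lemma aut_ext {φ : K ≃ₐ[ℚ] K} (h : ∀ i, φ (x i) = x i) : φ = 1 := by
  have h1 : ∀ p : P, φ (ι p) = ι p := by
    intro p
    induction p using MvPolynomial.induction_on with
    | C a => rw [← alg_ι, AlgEquiv.commutes]
    | add p q hp hq => rw [map_add, map_add, hp, hq]
    | mul_X p i hp =>
      rw [map_mul, map_mul, hp]
      congr 1
      exact h i
  ext t
  obtain ⟨a, s, hs, e⟩ := quo t
  have h0 : ι s ≠ 0 := by
    rw [Ne, map_eq_zero_iff _ ι_inj]
    exact hs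
  have h2 := congrArg φ e
  rw [map_mul, h1, h1, ← e] at h2
  simpa using mul_right_cancel₀ h0 h2

/-- multiplication operator -/
noncomputable def m (t : K) : En := AddMonoidHom.mulLeft t

/-- automorphism as an operator -/
noncomputable def au (φ : K ≃ₐ[ℚ] K) : En := (φ : K →+* K).toAddMonoidHom

@[simp] lemma m_apply (t y : K) : m t y = t * y := rfl
@[simp] lemma au_apply (φ : K ≃ₐ[ℚ] K) (y : K) : au φ y = φ y := rfl
lemma mul_ap (f g : En) (y : K) : (f * g) y = f (g y) := rfl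
lemma one_ap (y : K) : (1 : En) y = y := rfl
lemma add_ap (f g : En) (y : K) : (f + g) y = f y + g y := rfl
lemma En_ext {f g : En} (h : ∀ y, f y = g y) : f = g := AddMonoidHom.ext h
lemma sum_ap {α : Type} (s : Finset α) (F : α → En) (y : K) : (∑ a ∈ s, F a) y = ∑ a ∈ s, F a y :=
  AddMonoidHom.finsetSum_apply _ _ _

/-- the map from formal sums -/
noncomputable def Φ : (H →₀ K) →+ En :=
  Finsupp.liftAddHom (fun h : H =>
    { toFun := fun b => m b * au h
      map_zero' := En_ext fun y => by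
        rw [mul_ap, m_apply, zero_mul]
        rfl
      map_add' := fun b c => En_ext fun y => by
        rw [mul_ap, m_apply, add_mul]
        rfl })

lemma Φ_apply (c : H →₀ K) (t : K) : Φ c t = c.sum fun h b => b * (h : K ≃ₐ[ℚ] K) t := by
  unfold Φ
  rw [Finsupp.liftAddHom_apply, Finsupp.sum, Finsupp.sum, sum_ap]
  rfl

lemma Φ_single (h : H) (b : K) : Φ (Finsupp.single h b) = m b * au h := by
  refine En_ext fun t => ?_
  rw [Φ_apply, Finsupp.sum_single_index (by simp)]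
  rfl

/-- the subring `B * H` -/
noncomputable def A : Subring En where
  carrier := {f | ∃ c : H →₀ K, (∀ h, c h ∈ B) ∧ Φ c = f}
  zero_mem' := ⟨0, fun h => by simp, map_zero _⟩
  one_mem' := by
    classical
    refine ⟨Finsupp.single 1 1, fun h => ?_, ?_⟩
    · rw [Finsupp.single_apply]
      split_ifs
      · exact B.one_mem
      · exact B.zero_mem
    · rw [Φ_single]
      refine En_ext fun t => ?_
      rw [mul_ap, m_apply, one_mul]
      rfl
  add_mem' := by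
    rintro f g ⟨c, hc, rfl⟩ ⟨d, hd, rfl⟩
    exact ⟨c + d, fun h => B.add_mem (hc h) (hd h), map_add _ _ _⟩
  neg_mem' := by
    rintro f ⟨c, hc, rfl⟩
    exact ⟨-c, fun h => B.neg_mem (hc h), map_neg _ _⟩
  mul_mem' := by
    classical
    have hsum : ∀ (s : Finset H) (F : H → En), (∀ h ∈ s, ∃ c : H →₀ K, (∀ h, c h ∈ B) ∧ Φ c = F h) →
        ∃ c : H →₀ K, (∀ h, c h ∈ B) ∧ Φ c = ∑ h ∈ s, F h := by
      intro s F
      induction s using Finset.induction_on with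
      | empty => exact fun _ => ⟨0, fun h => by simp, by simp⟩
      | insert k s hk ih =>
        intro h
        obtain ⟨c, hc, e⟩ := h k (Finset.mem_insert_self _ _)
        obtain ⟨d, hd, e'⟩ := ih (fun h' hh' => h h' (Finset.mem_insert_of_mem hh'))
        exact ⟨c + d, fun h => B.add_mem (hc h) (hd h), by
          rw [map_add, e, e', Finset.sum_insert hk]⟩
    rintro f g ⟨c, hc, rfl⟩ ⟨d, hd, rfl⟩
    have h1 : Φ c * Φ d = ∑ h ∈ c.support, ∑ k ∈ d.support, m (c h * (h : K ≃ₐ[ℚ] K) (d k)) * au (h * k : H) := by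
      refine En_ext fun t => ?_
      rw [mul_ap, Φ_apply, Φ_apply, sum_ap, Finsupp.sum]
      refine Finset.sum_congr rfl fun h _ => ?_
      rw [sum_ap, Finsupp.sum, map_sum, Finset.mul_sum]
      refine Finset.sum_congr rfl fun k _ => ?_
      rw [map_mul, ← mul_assoc]
      rfl
    rw [h1]
    refine hsum _ _ fun h _ => hsum _ _ fun k _ => ⟨Finsupp.single (h * k) _, fun l => ?_, Φ_single _ _⟩
    rw [Finsupp.single_apply]
    split_ifs
    · exact B.mul_mem (hc h) (H_B h.2 (hd k))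
    · exact B.zero_mem

lemma mem_A {f : En} : f ∈ A ↔ ∃ c : H →₀ K, (∀ h, c h ∈ B) ∧ Φ c = f := Iff.rfl

lemma mh_mem {b : K} (hb : b ∈ B) {h : K ≃ₐ[ℚ] K} (hh : h ∈ H) : m b * au h ∈ A := by
  classical
  refine ⟨Finsupp.single ⟨h, hh⟩ b, fun l => ?_, Φ_single _ _⟩
  rw [Finsupp.single_apply]
  split_ifs
  · exact hb
  · exact B.zero_mem

lemma m_mem {b : K} (hb : b ∈ B) : m b ∈ A := by
  have := mh_mem hb H.one_mem
  convert this using 1
  exact En_ext fun t => rfl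

lemma h_mem {h : K ≃ₐ[ℚ] K} (hh : h ∈ H) : au h ∈ A := by
  have := mh_mem B.one_mem hh
  convert this using 1
  refine En_ext fun t => ?_
  rw [mul_ap, m_apply, one_mul]

end Pool.Agent.R692.SG
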