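import Mathlib

set_option autoImplicit false

/-!
# Strongly graded rings inside a group ring (helper692)

`E` a ring, `A` a subring, `G` a group of units of `E` normalizing `A`; `R` is the subring of the group ring
`E[G]` of all `f` with `f(g) ∈ A g` for all `g`.
-/

namespace Pool.Agent.R692.SG

open MonoidAlgebra

variable {E : Type} [Ring E]

/-- `G` normalizes `A` -/
def Nrm (A : Subring E) (G : Subgroup Eˣ) : Prop :=
  ∀ g ∈ G, ∀ a ∈ A, (g : E) * a * ((g⁻¹ : Eˣ) : E) ∈ A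

/-- the ring of all `∑ a_g g ⊗ g` in `E[G]` -/
def R (A : Subring E) (G : Subgroup Eˣ) (hN : Nrm A G) : Subring (MonoidAlgebra E G) where
  carrier := {f | ∀ g : G, f.coeff g * (((g : Eˣ)⁻¹ : Eˣ) : E) ∈ A}
  zero_mem' := fun g => by simp
  one_mem' := fun g => by
    classical
    rw [MonoidAlgebra.one_def, MonoidAlgebra.coeff_single, Finsupp.single_apply]
    split_ifs with h
    · subst h
      simp
    · simp
  add_mem' := fun {a b} ha hb g => by
    rw [MonoidAlgebra.coeff_add, Finsupp.add_apply, add_mul]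
    exact A.add_mem (ha g) (hb g)
  neg_mem' := fun {a} ha g => by
    rw [MonoidAlgebra.coeff_neg, Finsupp.neg_apply, neg_mul]
    exact A.neg_mem (ha g)
  mul_mem' := fun {a b} ha hb g => by
    classical
    rw [MonoidAlgebra.coeff_mul, Finsupp.sum_mul]
    refine A.sum_mem fun g1 _ => ?_
    simp only [Finsupp.sum_mul]
    refine A.sum_mem fun g2 _ => ?_
    beta_reduce
    split_ifs with h
    · subst h
      have h1 := ha g1
      have h2 := hN g1 g1.2 _ (hb g2)
      have := A.mul_mem h1 h2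
      convert this using 1
      have e : (((g1 : Eˣ)⁻¹ : Eˣ) : E) * (g1 : Eˣ) = 1 := Units.inv_mul _
      calc a.coeff g1 * b.coeff g2 * ((((g1 * g2 : G) : Eˣ)⁻¹ : Eˣ) : E)
          = a.coeff g1 * 1 * b.coeff g2 * ((((g1 * g2 : G) : Eˣ)⁻¹ : Eˣ) : E) := by rw [mul_one]
        _ = _ := by
          rw [← e]
          simp only [Subgroup.coe_mul, mul_inv_rev, Units.val_mul, mul_assoc]
    · simp

variable {A : Subring E} {G : Subgroup Eˣ} (hN : Nrm A G)

lemma single_mem {g : G} {u : E} (h : u * (((g : Eˣ)⁻¹ : Eˣ) : E) ∈ A) :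
    MonoidAlgebra.single g u ∈ R A G hN := by
  classical
  intro k
  rw [MonoidAlgebra.coeff_single, Finsupp.single_apply]
  split_ifs with hk
  · subst hk
    exact h
  · simp

/-- the homogeneous component of degree `g` -/
def gr (g : G) : AddSubgroup (R A G hN) where
  carrier := {r | ∀ k, k ≠ g → r.1.coeff k = 0}
  zero_mem' := fun k _ => by simp
  add_mem' := fun {a b} ha hb k hk => by
    rw [Subring.coe_add, MonoidAlgebra.coeff_add, Finsupp.add_apply, ha k hk, hb k hk, add_zero]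
  neg_mem' := fun {a} ha k hk => by
    rw [Subring.coe_neg, MonoidAlgebra.coeff_neg, Finsupp.neg_apply, ha k hk, neg_zero]

lemma eq_single {g : G} {r : R A G hN} (h : r ∈ gr hN g) : r.1 = MonoidAlgebra.single g (r.1.coeff g) := by
  classical
  ext k
  rw [MonoidAlgebra.coeff_single, Finsupp.single_apply]
  split_ifs with hk
  · rw [hk]
  · exact h k (fun h => hk h.symm)

/-- homogeneous element -/
noncomputable def hom (g : G) (u : E) (h : u * (((g : Eˣ)⁻¹ : Eˣ) : E) ∈ A) : R A G hN :=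
  ⟨MonoidAlgebra.single g u, single_mem hN h⟩

lemma hom_mem (g : G) (u : E) (h : u * (((g : Eˣ)⁻¹ : Eˣ) : E) ∈ A) : hom hN g u h ∈ gr hN g := by
  classical
  intro k hk
  show (MonoidAlgebra.single g u).coeff k = 0
  rw [MonoidAlgebra.coeff_single, Finsupp.single_apply, if_neg (fun h => hk h.symm)]

/-- the component of `r` in degree `g` -/
noncomputable def cmp (g : G) (r : R A G hN) : R A G hN := hom hN g (r.1.coeff g) (r.2 g)

lemma cmp_mem (g : G) (r : R A G hN) : cmp hN g r ∈ gr hN g := hom_mem hN g _ _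

lemma sum_cmp (r : R A G hN) : ∑ g ∈ r.1.coeff.support, cmp hN g r = r := by
  classical
  apply Subtype.ext
  rw [AddSubmonoidClass.coe_finsetSum]
  ext k
  rw [MonoidAlgebra.coeff_sum, Finsupp.finsetSum_apply]
  simp only [cmp, hom, MonoidAlgebra.coeff_single, Finsupp.single_apply]
  rw [Finset.sum_ite_eq']
  split_ifs with h
  · rfl
  · exact (Finsupp.notMem_support_iff.1 h).symm

lemma internal [DecidableEq G] : DirectSum.IsInternal (gr hN) := by
  constructor
  · rw [injective_iff_map_eq_zero]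
    intro x hx
    have key : ∀ (x : DirectSum G fun g => gr hN g) (k : G),
        (DirectSum.coeAddMonoidHom (gr hN) x).1.coeff k = (x k).1.1.coeff k := by
      intro x k
      induction x using DirectSum.induction_on with
      | zero => simp
      | of i y =>
        rw [DirectSum.coeAddMonoidHom_of]
        by_cases h : k = i
        · subst h
          rw [DirectSum.of_eq_same]
        · rw [DirectSum.of_eq_of_ne _ _ _ h]
          simpa using y.2 k h
      | add x y hx hy =>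
        rw [map_add, Subring.coe_add, MonoidAlgebra.coeff_add, Finsupp.add_apply, hx, hy]
        simp
    ext g : 1
    apply Subtype.ext
    apply Subtype.ext
    rw [eq_single hN (x g).2, ← key x g, hx]
    simp
  · intro r
    refine ⟨∑ g ∈ r.1.coeff.support, DirectSum.of (fun g => gr hN g) g ⟨cmp hN g r, cmp_mem hN g r⟩, ?_⟩
    rw [map_sum]
    simp only [DirectSum.coeAddMonoidHom_of]
    exact sum_cmp hN r

lemma hom_mul (g h : G) (u v : E) (hu : u * (((g : Eˣ)⁻¹ : Eˣ) : E) ∈ A)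
    (hv : v * (((h : Eˣ)⁻¹ : Eˣ) : E) ∈ A) (huv : u * v * ((((g * h : G) : Eˣ)⁻¹ : Eˣ) : E) ∈ A) :
    hom hN g u hu * hom hN h v hv = hom hN (g * h) (u * v) huv := by
  apply Subtype.ext
  exact MonoidAlgebra.single_mul_single _ _ _ _

lemma coeff_hom (g : G) (u : E) (h : u * (((g : Eˣ)⁻¹ : Eˣ) : E) ∈ A) : (hom hN g u h).1.coeff g = u := by
  classical
  show (MonoidAlgebra.single g u).coeff g = u
  rw [MonoidAlgebra.coeff_single, Finsupp.single_apply, if_pos rfl]

lemma gr_mul {g h : G} {x y : R A G hN} (hx : x ∈ gr hN g) (hy : y ∈ gr hN h) : x * y ∈ gr hN (g * h) := by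
  classical
  intro k hk
  rw [Subring.coe_mul, eq_single hN hx, eq_single hN hy, MonoidAlgebra.single_mul_single,
    MonoidAlgebra.coeff_single, Finsupp.single_apply, if_neg (fun h => hk h.symm)]

lemma strong (g h : G) {z : R A G hN} (hz : z ∈ gr hN (g * h)) :
    ∃ x ∈ gr hN g, ∃ y ∈ gr hN h, z = x * y := by
  have h1 : (z.1.coeff (g * h) * (((h : Eˣ)⁻¹ : Eˣ) : E)) * (((g : Eˣ)⁻¹ : Eˣ) : E) ∈ A := by
    have := z.2 (g * h)
    simpa only [Subgroup.coe_mul, mul_inv_rev, Units.val_mul, mul_assoc] using this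
  have h2 : ((h : Eˣ) : E) * (((h : Eˣ)⁻¹ : Eˣ) : E) ∈ A := by
    rw [Units.mul_inv]
    exact A.one_mem
  refine ⟨hom hN g _ h1, hom_mem hN _ _ _, hom hN h _ h2, hom_mem hN _ _ _, ?_⟩
  apply Subtype.ext
  refine (eq_single hN hz).trans ?_
  show _ = MonoidAlgebra.single g _ * MonoidAlgebra.single h _
  rw [MonoidAlgebra.single_mul_single, mul_assoc, Units.inv_mul, mul_one]

lemma ne_zero_of_gr {g : G} {r : R A G hN} (h : r ∈ gr hN g) (h0 : r ≠ 0) : r.1.coeff g ≠ 0 := by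
  intro h1
  apply h0
  apply Subtype.ext
  rw [eq_single hN h, h1]
  simp

lemma gr_mul' {g h k : G} (hk : g * h = k) {x y : R A G hN} (hx : x ∈ gr hN g) (hy : y ∈ gr hN h) :
    x * y ∈ gr hN k := by
  subst hk
  exact gr_mul hN hx hy

lemma coeff_mul' {g h k : G} (hk : g * h = k) {x y : R A G hN} (hx : x ∈ gr hN g) (hy : y ∈ gr hN h) :
    (x * y).1.coeff k = x.1.coeff g * y.1.coeff h := by
  classical
  subst hk
  have h1 : (x * y).1 = MonoidAlgebra.single (g * h) (x.1.coeff g * y.1.coeff h) := by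
    rw [← MonoidAlgebra.single_mul_single, ← eq_single hN hx, ← eq_single hN hy]
    rfl
  rw [h1, MonoidAlgebra.coeff_single, Finsupp.single_eq_same]

/-- graded simplicity -/
lemma gsimple
    (hS : ∀ J : Set E, J ⊆ A → (∃ a ∈ J, a ≠ 0) → (∀ a ∈ J, ∀ b ∈ J, a + b ∈ J) →
      (∀ a ∈ A, ∀ b ∈ J, a * b ∈ J ∧ b * a ∈ J) →
      (∀ g ∈ G, ∀ b ∈ J, (g : E) * b * ((g⁻¹ : Eˣ) : E) ∈ J) → (1 : E) ∈ J)
    (I : TwoSidedIdeal (R A G hN))
    (hI : ∀ x ∈ I, x ∈ AddSubgroup.closure {y : R A G hN | y ∈ I ∧ ∃ g, y ∈ gr hN g}) :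
    I = ⊥ ∨ I = ⊤ := by
  by_cases h0 : ∃ y ∈ I, y ≠ 0 ∧ ∃ g, y ∈ gr hN g
  · right
    obtain ⟨y, hyI, hy0, g, hg⟩ := h0
    set J : Set E := {a | ∃ r ∈ I, r ∈ gr hN 1 ∧ r.1.coeff 1 = a} with hJ
    have hcoe : ∀ r : R A G hN, r ∈ gr hN 1 → r.1 = MonoidAlgebra.single 1 (r.1.coeff 1) :=
      fun r hr => eq_single hN hr
    have h1 : (1 : E) ∈ J := by
      refine hS J ?_ ?_ ?_ ?_ ?_
      · rintro a ⟨r, -, hr, rfl⟩
        have := r.2 1
        simpa using this
      · have hmem : ((((g : Eˣ)⁻¹ : Eˣ)) : E) * (((((g⁻¹ : G)) : Eˣ)⁻¹ : Eˣ) : E) ∈ A := by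
          rw [Subgroup.coe_inv, Units.mul_inv]
          exact A.one_mem
        refine ⟨y.1.coeff g * (((g : Eˣ)⁻¹ : Eˣ) : E), ⟨y * hom hN g⁻¹ _ hmem, I.mul_mem_right _ _ hyI,
          gr_mul' hN (mul_inv_cancel g) hg (hom_mem hN g⁻¹ _ hmem), ?_⟩, ?_⟩
        · rw [coeff_mul' hN (mul_inv_cancel g) hg (hom_mem hN g⁻¹ _ hmem), coeff_hom]
        · intro h
          have h2 := ne_zero_of_gr hN hg hy0
          apply h2
          have := congrArg (· * ((g : Eˣ) : E)) h
          simpa [mul_assoc] using this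
      · rintro a ⟨r, hr, hr1, rfl⟩ b ⟨s, hs, hs1, rfl⟩
        exact ⟨r + s, I.add_mem hr hs, (gr hN 1).add_mem hr1 hs1, by simp⟩
      · rintro a ha b ⟨r, hr, hr1, rfl⟩
        have ha1 : a * ((((1 : G) : Eˣ)⁻¹ : Eˣ) : E) ∈ A := by simpa using ha
        constructor
        · refine ⟨hom hN 1 a ha1 * r, I.mul_mem_left _ _ hr,
            gr_mul' hN (mul_one 1) (hom_mem hN 1 a ha1) hr1, ?_⟩
          rw [coeff_mul' hN (mul_one 1) (hom_mem hN 1 a ha1) hr1, coeff_hom]
        · refine ⟨r * hom hN 1 a ha1, I.mul_mem_right _ _ hr,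
            gr_mul' hN (mul_one 1) hr1 (hom_mem hN 1 a ha1), ?_⟩
          rw [coeff_mul' hN (mul_one 1) hr1 (hom_mem hN 1 a ha1), coeff_hom]
      · rintro k hk b ⟨r, hr, hr1, rfl⟩
        obtain ⟨k', hk'⟩ : ∃ k' : G, (k' : Eˣ) = k := ⟨⟨k, hk⟩, rfl⟩
        subst hk'
        have m1 : ((k' : Eˣ) : E) * ((((k' : G) : Eˣ)⁻¹ : Eˣ) : E) ∈ A := by
          rw [Units.mul_inv]
          exact A.one_mem
        have m2 : ((((k' : Eˣ)⁻¹ : Eˣ)) : E) * ((((k'⁻¹ : G) : Eˣ)⁻¹ : Eˣ) : E) ∈ A := by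
          rw [Subgroup.coe_inv, Units.mul_inv]
          exact A.one_mem
        have e1 := hom_mem hN k' _ m1
        have e2 := hom_mem hN k'⁻¹ _ m2
        refine ⟨hom hN k' _ m1 * r * hom hN k'⁻¹ _ m2,
          I.mul_mem_right _ _ (I.mul_mem_left _ _ hr),
          gr_mul' hN (mul_inv_cancel k') (gr_mul' hN (mul_one k') e1 hr1) e2, ?_⟩
        rw [coeff_mul' hN (mul_inv_cancel k') (gr_mul' hN (mul_one k') e1 hr1) e2,
          coeff_mul' hN (mul_one k') e1 hr1, coeff_hom, coeff_hom]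
    obtain ⟨r, hrI, hr1, hr⟩ := h1
    have : r = 1 := by
      apply Subtype.ext
      rw [hcoe r hr1, hr]
      rfl
    rw [this] at hrI
    exact (TwoSidedIdeal.one_mem_iff _).1 hrI
  · left
    push Not at h0
    rw [eq_bot_iff]
    intro x hx
    have h1 : ({y : R A G hN | y ∈ I ∧ ∃ g, y ∈ gr hN g} : Set _) ⊆ {0} := by
      rintro y ⟨hy, g, hg⟩
      by_contra h
      exact h0 y hy h g hg
    have h2 := AddSubgroup.closure_mono h1 (hI x hx)
    rw [AddSubgroup.closure_singleton_zero] at h2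
    rw [AddSubgroup.mem_bot.1 h2]
    exact TwoSidedIdeal.zero_mem _

/-- the centralizer of the component of degree `1` -/
lemma centr
    (hC : ∀ u : E, (∀ a ∈ A, u * a = a * u) → ∀ g ∈ G, u * ((g⁻¹ : Eˣ) : E) ∈ A → u ≠ 0 → g = 1)
    (r : R A G hN) (hr : ∀ a ∈ gr hN 1, r * a = a * r) : r ∈ gr hN 1 := by
  intro g hg
  by_contra h0
  apply hg
  have := hC (r.1.coeff g) (fun a ha => ?_) g g.2 (r.2 g) h0
  · exact Subtype.ext this
  · have ha1 : a * ((((1 : G) : Eˣ)⁻¹ : Eˣ) : E) ∈ A := by simpa using ha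
    have h1 := congrArg (fun x : R A G hN => x.1.coeff g) (hr _ (hom_mem hN 1 a ha1))
    have h2 : (r.1 * MonoidAlgebra.single 1 a).coeff g = (MonoidAlgebra.single 1 a * r.1).coeff g := h1
    rwa [MonoidAlgebra.coeff_mul_single_one, MonoidAlgebra.coeff_single_one_mul] at h2

/-- the augmentation ideal of the construction is proper and nonzero -/
lemma notsimple [Nontrivial E]
    (hK : ∃ g ∈ G, g ≠ 1 ∧ ∃ a ∈ A, a ≠ 0 ∧ a * ((g⁻¹ : Eˣ) : E) ∈ A) :
    ∃ I : TwoSidedIdeal (R A G hN), I ≠ ⊥ ∧ I ≠ ⊤ := by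
  classical
  let φ : MonoidAlgebra E G →+* E := MonoidAlgebra.liftNCRingHom (RingHom.id E) (1 : G →* E)
    (fun x y => by simp)
  let ψ : R A G hN →+* E := φ.comp (R A G hN).subtype
  have hφ : ∀ g u, φ (MonoidAlgebra.single g u) = u := by
    intro g u
    show MonoidAlgebra.liftNC _ _ _ = _
    rw [MonoidAlgebra.liftNC_single]
    simp
  refine ⟨TwoSidedIdeal.ker ψ, ?_, ?_⟩
  · obtain ⟨g, hg, hg1, a, ha, ha0, hag⟩ := hK
    intro h
    have ha1 : a * ((((1 : G) : Eˣ)⁻¹ : Eˣ) : E) ∈ A := by simpa using ha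
    have h1 : hom hN ⟨g, hg⟩ a hag - hom hN 1 a ha1 ∈ TwoSidedIdeal.ker ψ := by
      rw [TwoSidedIdeal.mem_ker, map_sub]
      show φ (MonoidAlgebra.single _ a) - φ (MonoidAlgebra.single _ a) = 0
      rw [hφ, hφ, sub_self]
    rw [h, TwoSidedIdeal.mem_bot, sub_eq_zero] at h1
    have h2 : (MonoidAlgebra.single (⟨g, hg⟩ : G) a : MonoidAlgebra E G) = MonoidAlgebra.single 1 a :=
      congrArg Subtype.val h1
    have h3 := congrArg (fun x => x.coeff 1) h2
    simp only [MonoidAlgebra.coeff_single, Finsupp.single_apply, if_true] at h3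
    rw [if_neg (fun h => hg1 (congrArg Subtype.val h))] at h3
    exact ha0 h3.symm
  · intro h
    have h1 : (1 : R A G hN) ∈ TwoSidedIdeal.ker ψ := by
      rw [h]
      exact TwoSidedIdeal.mem_top _
    rw [TwoSidedIdeal.mem_ker, map_one] at h1
    exact one_ne_zero h1

end Pool.Agent.R692.SG
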