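import Pool.Agent.R692.SG.Fld

set_option autoImplicit false

/-!
# Ideals of the crossed product (helper692)
-/

namespace Pool.Agent.R692.SG

open MvPolynomial

/-- torus elements exist -/
lemma torus (l : ℤ → ℚ) (hl : ∀ i, l i ≠ 0) : ∃ h ∈ H, ∀ p : P, h (ι p) = ι (aeval (fun i => C (l i) * X i) p) := by
  let f : P →ₐ[ℚ] P := aeval (fun i => C (l i) * X i)
  let g : P →ₐ[ℚ] P := aeval (fun i => C (l i)⁻¹ * X i)
  have hfg : f.comp g = AlgHom.id ℚ P := by
    apply MvPolynomial.algHom_ext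
    intro i
    simp only [f, g, AlgHom.comp_apply, aeval_X, map_mul, algHom_C, AlgHom.id_apply, algebraMap_eq]
    rw [← mul_assoc, ← C_mul, inv_mul_cancel₀ (hl i), C_1, one_mul]
  have hgf : g.comp f = AlgHom.id ℚ P := by
    apply MvPolynomial.algHom_ext
    intro i
    simp only [f, g, AlgHom.comp_apply, aeval_X, map_mul, algHom_C, AlgHom.id_apply, algebraMap_eq]
    rw [← mul_assoc, ← C_mul, mul_inv_cancel₀ (hl i), C_1, one_mul]
  let e : P ≃ₐ[ℚ] P := AlgEquiv.ofAlgHom f g hfg hgf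
  have h1 : ∀ p : P, IsFractionRing.algEquivOfAlgEquiv (K := K) (L := K) e (ι p) = ι (e p) := by
    intro p
    exact IsFractionRing.ringEquivOfRingEquiv_algebraMap e.toRingEquiv p
  refine ⟨IsFractionRing.algEquivOfAlgEquiv (K := K) (L := K) e, ?_, h1⟩
  intro i
  refine ⟨l i, hl i, ?_⟩
  unfold x
  rw [h1, alg_ι, ← map_mul]
  congr 1
  exact aeval_X _ _

/-- permutations exist -/
lemma perm (σ : Equiv.Perm ℤ) : ∃ h ∈ Γ, ∀ p : P, h (ι p) = ι (rename σ p) := by
  let e : P ≃ₐ[ℚ] P := renameEquiv ℚ σ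
  have h1 : ∀ p : P, IsFractionRing.algEquivOfAlgEquiv (K := K) (L := K) e (ι p) = ι (e p) := by
    intro p
    exact IsFractionRing.ringEquivOfRingEquiv_algebraMap e.toRingEquiv p
  refine ⟨IsFractionRing.algEquivOfAlgEquiv (K := K) (L := K) e, ⟨σ, fun i => ?_⟩, h1⟩
  unfold x
  rw [h1]
  congr 1
  exact rename_X _ _

/-- invariants of the torus are rational -/
lemma inv_rat (t : K) (h : ∀ φ ∈ H, φ t = t) : ∃ c : ℚ, t = algebraMap ℚ K c := by
  obtain ⟨a, b, hb, e⟩ := quo t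
  obtain ⟨p, hp, hpb⟩ : ∃ p : ℤ → ℚ, (∀ i, p i ≠ 0) ∧ eval p b ≠ 0 := by
    by_contra hcon
    push Not at hcon
    apply hb
    apply MvPolynomial.funext_set (fun _ => {0}ᶜ) (fun _ => (Set.finite_singleton 0).infinite_compl)
    intro y hy
    rw [map_zero]
    exact hcon y (fun i => hy i (Set.mem_univ i))
  have key : C (eval p b) * a = C (eval p a) * b := by
    apply MvPolynomial.funext_set (fun _ => {0}ᶜ) (fun _ => (Set.finite_singleton 0).infinite_compl)
    intro y hy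
    have hy' : ∀ i, y i ≠ 0 := fun i => hy i (Set.mem_univ i)
    obtain ⟨φ, hφ, hφ2⟩ := torus (fun i => y i / p i) (fun i => div_ne_zero (hy' i) (hp i))
    have h1 := congrArg φ e
    rw [map_mul, h φ hφ, hφ2, hφ2] at h1
    have h2 : a * aeval (fun i => C (y i / p i) * X i) b = b * aeval (fun i => C (y i / p i) * X i) a := by
      apply ι_inj
      rw [map_mul, map_mul, ← e, ← h1]
      ring
    have h3 : ∀ q : P, eval p (aeval (fun i => C (y i / p i) * X i) q) = eval y q := by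
      intro q
      induction q using MvPolynomial.induction_on with
      | C a => rw [algHom_C, algebraMap_eq, eval_C, eval_C]
      | add f g hf hg => rw [map_add, map_add, map_add, hf, hg]
      | mul_X f i hf =>
        rw [map_mul, map_mul, map_mul, hf, aeval_X, map_mul, eval_C, eval_X, eval_X,
          div_mul_cancel₀ _ (hp i)]
    have h4 := congrArg (eval p) h2
    rw [map_mul, map_mul, h3, h3] at h4
    rw [map_mul, map_mul, eval_C, eval_C]
    linear_combination -h4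
  refine ⟨eval p a / eval p b, ?_⟩
  have hb0 : ι b ≠ 0 := by
    rw [Ne, map_eq_zero_iff _ ι_inj]
    exact hb
  have hc0 : algebraMap ℚ K (eval p b) ≠ 0 := by
    rw [Ne, map_eq_zero_iff _ (algebraMap ℚ K).injective]
    exact hpb
  rw [map_div₀, eq_div_iff hc0]
  apply mul_right_cancel₀ hb0
  have h5 := congrArg ι key
  rw [map_mul, map_mul, ← alg_ι, ← alg_ι, ← e] at h5
  rw [← h5]
  ring

/-- an operator commuting with all multiplications by elements of `B` is a multiplication -/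
lemma comm_mul {f : En} {k : K ≃ₐ[ℚ] K} (h : ∀ b ∈ B, ∀ t, f (b * t) = k b * f t) :
    f = m (f 1) * au k := by
  refine En_ext fun t => ?_
  obtain ⟨a, s, hs, e⟩ := quo t
  have hs0 : ι s ≠ 0 := by
    rw [Ne, map_eq_zero_iff _ ι_inj]
    exact hs
  have hk0 : k (ι s) ≠ 0 := by
    rw [Ne, map_eq_zero_iff _ k.injective]
    exact hs0
  have h1 := h (ι s) (ι_mem s) t
  have h2 := h (ι a) (ι_mem a) 1
  rw [mul_comm, e] at h1
  rw [mul_one] at h2
  rw [mul_ap, m_apply, au_apply]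
  apply mul_left_cancel₀ hk0
  rw [← h1, h2, ← e, map_mul]
  ring

/-- nonzero ideals of `A` contain nonzero multiplications -/
lemma ideal_mul (J : Set En) (hJA : J ⊆ A) (h0 : ∃ a ∈ J, a ≠ 0)
    (hadd : ∀ a ∈ J, ∀ b ∈ J, a + b ∈ J) (hmul : ∀ a ∈ A, ∀ b ∈ J, a * b ∈ J ∧ b * a ∈ J) :
    ∃ b ∈ B, b ≠ 0 ∧ m b ∈ J := by
  classical
  have hneg : ∀ a ∈ J, -a ∈ J := fun a ha => by
    have h1 := (hmul (-1) (A.neg_mem A.one_mem) a ha).1
    have h2 : (-1 : En) * a = -a := En_ext fun t => rfl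
    rwa [h2] at h1
  have hex : ∃ n, ∃ c : H →₀ K, c.support.card = n ∧ (∀ h, c h ∈ B) ∧ Φ c ∈ J ∧ Φ c ≠ 0 := by
    obtain ⟨a, ha, ha0⟩ := h0
    obtain ⟨c, hc, rfl⟩ := hJA ha
    exact ⟨_, c, rfl, hc, ha, ha0⟩
  obtain ⟨c, hcard, hcB, hcJ, hc0⟩ := Nat.find_spec hex
  have hmin : ∀ d : H →₀ K, d.support.card < c.support.card → (∀ h, d h ∈ B) → Φ d ∈ J → Φ d = 0 := by
    intro d hd hdB hdJ
    by_contra hd0
    exact Nat.find_min hex (by rw [← hcard]; exact hd) ⟨d, rfl, hdB, hdJ, hd0⟩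
  have hne : c.support.Nonempty := by
    rw [Finset.nonempty_iff_ne_empty]
    intro h
    rw [Finsupp.support_eq_empty] at h
    rw [h, map_zero] at hc0
    exact hc0 rfl
  obtain ⟨k, hk⟩ := hne
  have hcomm : ∀ b ∈ B, ∀ t, Φ c (b * t) = (k : K ≃ₐ[ℚ] K) b * Φ c t := by
    intro b hb t
    set d : H →₀ K := c.mapRange id rfl with hd
    -- the difference
    let d : H →₀ K := Finsupp.onFinset (c.support.erase k)
      (fun h => ((h : K ≃ₐ[ℚ] K) b - (k : K ≃ₐ[ℚ] K) b) * c h) (by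
        intro h hh
        rw [Finset.mem_erase]
        refine ⟨?_, ?_⟩
        · rintro rfl
          exact hh (by rw [sub_self, zero_mul])
        · rw [Finsupp.mem_support_iff]
          intro h2
          exact hh (by rw [h2, mul_zero]))
    have hd1 : Φ d = Φ c * m b + -(m ((k : K ≃ₐ[ℚ] K) b) * Φ c) := by
      refine En_ext fun y => ?_
      rw [add_ap, mul_ap]
      show _ = _ + -((m ((k : K ≃ₐ[ℚ] K) b) * Φ c) y)
      rw [mul_ap, m_apply, m_apply, Φ_apply, Φ_apply, Φ_apply, Finsupp.onFinset_sum _ (by intro a; rw [zero_mul]),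
        Finsupp.sum, Finsupp.sum, Finset.mul_sum, ← sub_eq_add_neg, ← Finset.sum_sub_distrib,
        ← Finset.sum_erase_add _ _ hk]
      rw [map_mul, show c k * ((k : K ≃ₐ[ℚ] K) b * (k : K ≃ₐ[ℚ] K) y) -
        (k : K ≃ₐ[ℚ] K) b * (c k * (k : K ≃ₐ[ℚ] K) y) = 0 by ring, add_zero]
      refine Finset.sum_congr rfl fun h _ => ?_
      rw [map_mul]
      ring
    have hd2 : Φ d = 0 := by
      refine hmin d ?_ ?_ ?_
      · refine lt_of_le_of_lt (Finset.card_le_card Finsupp.support_onFinset_subset) ?_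
        exact Finset.card_erase_lt_of_mem hk
      · intro h
        show ((h : K ≃ₐ[ℚ] K) b - (k : K ≃ₐ[ℚ] K) b) * c h ∈ B
        exact B.mul_mem (B.sub_mem (H_B h.2 hb) (H_B k.2 hb)) (hcB h)
      · rw [hd1]
        exact hadd _ (hmul _ (m_mem hb) _ hcJ).2 _ (hneg _ (hmul _ (m_mem (H_B k.2 hb)) _ hcJ).1)
    rw [hd2] at hd1
    have h3 := DFunLike.congr_fun hd1 t
    rw [add_ap, mul_ap] at h3
    have h4 : (0 : K) = Φ c (m b t) + -((m ((k : K ≃ₐ[ℚ] K) b) * Φ c) t) := h3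
    rw [mul_ap, m_apply, m_apply] at h4
    linear_combination -h4
  have h5 := comm_mul hcomm
  have h6 : Φ c * au (k : K ≃ₐ[ℚ] K)⁻¹ = m (Φ c 1) := by
    refine En_ext fun t => ?_
    have h7 := DFunLike.congr_fun h5 (au (k : K ≃ₐ[ℚ] K)⁻¹ t)
    rw [mul_ap, h7, mul_ap, m_apply, au_apply, au_apply, m_apply, AlgEquiv.aut_inv,
      AlgEquiv.apply_symm_apply]
  refine ⟨Φ c 1, ?_, ?_, ?_⟩
  · rw [Φ_apply]
    refine B.sum_mem fun h _ => ?_
    show c h * (h : K ≃ₐ[ℚ] K) 1 ∈ B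
    rw [map_one, mul_one]
    exact hcB h
  · intro h
    rw [h] at h5
    apply hc0
    rw [h5]
    refine En_ext fun t => ?_
    rw [mul_ap, m_apply, zero_mul]
    rfl
  · rw [← h6]
    exact (hmul _ (h_mem (H.inv_mem k.2)) _ hcJ).2

end Pool.Agent.R692.SG
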